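import Mathlib
import Pool.Agent.N92.FJ.Lib

/-!
Fermat primes: all Jacobi sums of the characters of order `2 ^ k`, `k ≤ m + 1`, for a Fermat prime
`F_m = 2 ^ (2 ^ m) + 1`, `m ≥ 3`, the corresponding binomial coefficients modulo `F_m`, and the
cyclotomic numbers of order `2 ^ k`. The Jacobi sums for `k ≥ 3` are evaluated in the starting library
(`Pool/Agent/Y875/FP/MerC.lean`, not handed in); the proof here for `k ≤ m` is independent.
-/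

set_option autoImplicit false

namespace Pool.Agent.Results.MP_37e5fa_nt.JacobiSums

open Polynomial

/-- The set `V (a, b)`: the odd `u < 2 ^ k` for which the least residues of `u a` and `u b` modulo
`2 ^ k` have a sum less than `2 ^ k`. -/
def V (k a b : ℕ) : Finset ℕ :=
  (Finset.range (2 ^ k)).filter fun u => Odd u ∧ (u * a) % 2 ^ k + (u * b) % 2 ^ k < 2 ^ k

/-- The least residue of the inverse of `u` modulo `2 ^ k`. -/
def inv (k u : ℕ) : ℕ := ((u : ZMod (2 ^ k))⁻¹).val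

/-- `p = x ^ (2 ^ (k - 1)) + 1` is a prime number, and one of the following holds:
* `x = 2 ^ (2 ^ (m + 1 - k))` with `3 ≤ m` and `k ≤ m + 1` (so `p` is the Fermat number `F_m`);
* `3 ≤ k`, `x` is even, divisible by `4` if `k = 3`, and `2` is a `2 ^ k`-th power modulo `p`;
* `4 ^ k` divides `x`. -/
def Admissible (k x p : ℕ) : Prop :=
  p.Prime ∧ p = x ^ (2 ^ (k - 1)) + 1 ∧
    ((∃ m, 3 ≤ m ∧ k ≤ m + 1 ∧ x = 2 ^ (2 ^ (m + 1 - k))) ∨
      (3 ≤ k ∧ (4 ∣ x ∨ (2 ∣ x ∧ 4 ≤ k)) ∧ (2 : ZMod p) ^ ((p - 1) / 2 ^ k) = 1) ∨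
      4 ^ k ∣ x)

/-- **Cyclotomy of order `2 ^ k` at Fermat primes.** -/
theorem result :
    ∀ k : ℕ, 1 ≤ k → ∃ P : ℕ → ℕ → ℤ[X], ∀ x p : ℕ, Admissible k x p → ∀ [Fact p.Prime],
      -- the Jacobi sums
      (∀ (K : Type) [CommRing K] (z : K), z ^ (2 ^ (k - 1)) = -1 →
        ∃ χ : MulChar (ZMod p) K,
          (∀ t : ZMod p, t ≠ 0 → ∀ e : ℕ, t ^ ((p - 1) / 2 ^ k) = (x : ZMod p) ^ e → χ t = z ^ e) ∧
          ∀ a b : ℕ, ¬ 2 ^ k ∣ a → ¬ 2 ^ k ∣ b → ¬ 2 ^ k ∣ a + b →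
            jacobiSum (χ ^ a) (χ ^ b) = -∏ u ∈ V k a b, (1 - (x : K) * z ^ (2 ^ k - inv k u))) ∧
      -- the binomial coefficients
      (∀ a b : ℕ, 0 < a → 0 < b → a + b < 2 ^ k →
        ((((a + b) * ((p - 1) / 2 ^ k)).choose (a * ((p - 1) / 2 ^ k)) : ℕ) : ZMod p) =
          ∏ u ∈ V k a b, (1 - (x : ZMod p) ^ (1 + inv k u))) ∧
      -- the cyclotomic numbers
      (∀ i j : ℕ, (P i j).Monic ∧ (P i j).natDegree = 2 ^ (k - 1) ∧
        (4 : ℤ) ^ k * ({t : ZMod p | t ≠ 0 ∧ t ≠ 1 ∧ t ^ ((p - 1) / 2 ^ k) = (x : ZMod p) ^ i ∧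
          (1 - t) ^ ((p - 1) / 2 ^ k) = (x : ZMod p) ^ j}.ncard : ℤ) = (P i j).eval (x : ℤ)) := by
  intro k hk
  obtain ⟨l, rfl⟩ : ∃ l, k = l + 1 := ⟨k - 1, by omega⟩
  refine ⟨fun i j => Pool.Agent.N92.FJ.Dat.CP l
    ((i : ZMod (2 ^ (l + 1))), (j : ZMod (2 ^ (l + 1)))), ?_⟩
  intro x p hadm _
  obtain ⟨hp, hpx, hcase⟩ := hadm
  rw [Nat.add_sub_cancel] at hpx ⊢
  have main : ∃ D : Pool.Agent.N92.FJ.Dat l x p ((p - 1) / 2 ^ (l + 1)), D.Full := by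
    rcases hcase with ⟨m, hm, hkm, hx⟩ | ⟨hk3, hx, h2⟩ | hx
    · have hlm : l ≤ m := by omega
      have hx' : x = Pool.Agent.N92.FJ.xF m l := by
        rw [hx, Pool.Agent.N92.FJ.xF]
        congr 2; omega
      have hp' : p = 2 ^ (2 ^ m) + 1 := by
        rw [hpx, hx', Pool.Agent.N92.FJ.xF_pow hlm]
      subst hp'
      have h1 := Pool.Agent.N92.FJ.fullF' hm hp hlm
      have h2 : (2 ^ (2 ^ m) + 1 - 1) / 2 ^ (l + 1) = Pool.Agent.N92.FJ.nF m l := by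
        rw [Nat.add_sub_cancel, Pool.Agent.N92.FJ.nF]
        have h3 := Pool.Agent.N92.FJ.two_mul_lt m hm
        exact Nat.pow_div (by omega) (by norm_num)
      rw [h2, hx']
      exact ⟨_, h1⟩
    · have hx1 : 4 ∣ x ∨ (2 ∣ x ∧ 3 ≤ l) := hx.imp_right fun h => ⟨h.1, by omega⟩
      exact ⟨_, (Pool.Agent.N92.FJ.Dat.of_even hp hpx (by omega) hx1).full_lib (by omega) h2 hx1⟩
    · have hx' : (2 ^ (l + 1)) ^ 2 ∣ x := by
        rwa [← pow_mul, mul_comm, pow_mul]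
      exact ⟨_, (Pool.Agent.N92.FJ.Dat.of_dvd hp hpx hx').full hx'⟩
  obtain ⟨D, hF⟩ := main
  refine ⟨?_, ?_, ?_⟩
  · intro K _ z hz
    exact D.jacobi hF K z hz
  · intro a b ha hb hab
    exact D.binom hF a b ha hb hab
  · intro i j
    obtain ⟨h1, h2⟩ := Pool.Agent.N92.FJ.CP_monic
      (l := l) ((i : ZMod (2 ^ (l + 1))), (j : ZMod (2 ^ (l + 1))))
    refine ⟨h1, h2, ?_⟩
    rw [D.eval_CP hF, D.cy_eq]
    have h3 : (4 : ℤ) ^ (l + 1) = (2 ^ (l + 1)) ^ 2 := by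
      rw [← pow_mul, mul_comm, pow_mul]; norm_num
    rw [h3]

end Pool.Agent.Results.MP_37e5fa_nt.JacobiSums
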