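import Pool.Agent.N652.FM.Main

/-!
# The expected number of Fermat primes beyond `F_M`, for almost every amplitude and base

For real `b > 1`, `β > 0` let `W b k β m` be the `2 ^ (m + k)`-rough part (the product, with
multiplicity, of the prime factors larger than `2 ^ (m + k)`) of `⌊β b ^ (2 ^ m)⌋ + 1`.  The Fermat
numbers are `F_m = W 2 2 1 m`, `m ≥ 2`, since their prime factors are `1` modulo `2 ^ (m + 2)`, and
`b ^ (2 ^ m) + 1 = W b 1 1 m` for even `b`.

For almost every amplitude `β` (with any fixed base) and for almost every base `b` (with the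
amplitude `1`) only finitely many of these numbers are prime, and the measure of the set of the
amplitudes, or bases, for which one of them with `m ≥ M` is prime is asymptotically
`e ^ γ (log 2 / log b) (2 M + 2 k + 2) / 2 ^ M` times the measure `dβ / β`, or `d (log b)`; for
`b = k = 2` this is `e ^ γ (2 M + 6) / 2 ^ M`, the heuristic probability that there is a Fermat prime
beyond `F_M`.
-/

set_option autoImplicit false

namespace Pool.Agent.Results.MP_37e5fa_nt.MetricTail

open Filter Topology MeasureTheory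

/-- The product, with multiplicity, of the prime factors of `n` that are larger than `z`. -/
def roughPart (z n : ℕ) : ℕ := (n.primeFactorsList.filter (fun r => z < r)).prod

/-- The `2 ^ (m + k)`-rough part of `⌊β b ^ (2 ^ m)⌋ + 1`. -/
noncomputable def W (b : ℝ) (k : ℕ) (β : ℝ) (m : ℕ) : ℕ :=
  roughPart (2 ^ (m + k)) (⌊β * b ^ 2 ^ m⌋₊ + 1)

theorem result :
    -- the Fermat numbers, and the numbers `b ^ (2 ^ m) + 1` with even `b`
    (∀ m : ℕ, 2 ≤ m → W 2 2 1 m = Nat.fermatNumber m) ∧
    (∀ b : ℕ, Even b → ∀ m : ℕ, W b 1 1 m = b ^ 2 ^ m + 1) ∧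
    -- fixed base, almost every amplitude `β = exp u`
    (∀ (b : ℝ) (k : ℕ), 1 < b → (∀ᵐ β : ℝ, 0 < β → {m : ℕ | (W b k β m).Prime}.Finite) ∧
      ∀ s t : ℝ, s < t → Tendsto (fun M : ℕ =>
        volume.real {u : ℝ | u ∈ Set.Ioc s t ∧ ∃ m, M ≤ m ∧ (W b k (Real.exp u) m).Prime} *
          (2 ^ M / (2 * M + 2 * k + 2))) atTop
        (𝓝 (Real.exp Real.eulerMascheroniConstant * (Real.log 2 / Real.log b) * (t - s)))) ∧
    -- amplitude one, almost every base `b = exp u`
    (∀ k : ℕ, (∀ᵐ b : ℝ, 1 < b → {m : ℕ | (W b k 1 m).Prime}.Finite) ∧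
      ∀ s t : ℝ, 0 < s → s < t → Tendsto (fun M : ℕ =>
        volume.real {u : ℝ | u ∈ Set.Ioc s t ∧ ∃ m, M ≤ m ∧ (W (Real.exp u) k 1 m).Prime} *
          (2 ^ M / (2 * M + 2 * k + 2))) atTop
        (𝓝 (Real.exp Real.eulerMascheroniConstant * Real.log 2 * (Real.log t - Real.log s)))) :=
  ⟨fun _ hm => Pool.Agent.N652.FM.WF_fermat hm, fun _ hb m => Pool.Agent.N652.FM.WF_even hb m,
    fun _ k hb => ⟨Pool.Agent.N652.FM.fermat_finite hb k,
      fun _ _ hst => Pool.Agent.N652.FM.fermat_measure hb k hst⟩,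
    fun k => ⟨Pool.Agent.N652.FM.base_finite k,
      fun _ _ hs hst => Pool.Agent.N652.FM.base_measure k hs hst⟩⟩

end Pool.Agent.Results.MP_37e5fa_nt.MetricTail
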