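import Pool.Agent.N682.Quarter

/-!
# A quarter of Pepin's test

`F_m = 2 ^ (2 ^ m) + 1` has no proper divisor `d > 1` with `d ≡ 1` modulo `2 ^ (2 ^ m / 4)`; hence
`F_m` is prime if and only if `-1` is a `2 ^ (2 ^ (m - 2) - 1)`-th power modulo `F_m`.
-/

set_option autoImplicit false

namespace Pool.Agent.Results.MP_37e5fa_nt.QuarterPepin

theorem result (m : ℕ) (hm : 2 ≤ m) :
    (∀ d : ℕ, d ∣ Nat.fermatNumber m → d ≡ 1 [MOD 2 ^ (2 ^ (m - 2))] →
      d = 1 ∨ d = Nat.fermatNumber m) ∧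
    ((Nat.fermatNumber m).Prime ↔
      ∃ b : ZMod (Nat.fermatNumber m), b ^ (2 ^ (2 ^ (m - 2) - 1)) = -1) := by
  refine ⟨fun d hd h1 => ?_, Pool.Agent.N682.Quarter.criterion m hm⟩
  have hd0 : 0 < d := Nat.pos_of_dvd_of_pos hd (by
    have := Nat.three_le_fermatNumber m
    omega)
  exact Pool.Agent.N682.Quarter.divisor m hm d hd
    ((Nat.modEq_iff_dvd' hd0).1 h1.symm)

end Pool.Agent.Results.MP_37e5fa_nt.QuarterPepin
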