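import Pool.Agent.N449.SF.Main
import Pool.Agent.N449.SF.Digits

/-!
# Factors of Fermat numbers with few binary digits

`F_m = 2 ^ (2 ^ m) + 1` has no factorization into two factors with few signed binary digits
(or few short blocks of digits), and the product of the binary digit sums of two complementary
factors exceeds `(3 / 4) 2 ^ m`.
-/

set_option autoImplicit false

namespace Pool.Agent.Results.MP_37e5fa_nt.SparseFactors

open Finset

theorem result (m : ℕ) :
    -- (i) signed digits, or arbitrary integer coefficients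
    (∀ d e : ℤ, d * e = 2 ^ (2 ^ m) + 1 → 1 < |d| → 1 < |e| →
      ∀ (S T : Finset ℕ) (u v : ℕ → ℤ),
        d = ∑ i ∈ S, u i * 2 ^ i → e = ∑ j ∈ T, v j * 2 ^ j →
        (2 : ℤ) ^ (2 ^ m) ≤ (2 + (∑ i ∈ S, |u i|) * (∑ j ∈ T, |v j|))
          ^ (4 * T.card * (8 * T.card) ^ (S.card - 1))) ∧
    -- (ii) binary digit sums
    (∀ d e : ℕ, d * e = 2 ^ (2 ^ m) + 1 → 1 < d → 1 < e →
      3 * 2 ^ m + 12 ≤ 4 * ((Nat.digits 2 d).sum * (Nat.digits 2 e).sum)) := by
  refine ⟨fun d e h hd he S T u v hS hT => Pool.Agent.N449.SF.main m d e h hd he S T u v hS hT,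
    fun d e h hd he => ?_⟩
  by_cases hm : 2 ≤ m
  · have h1 := Pool.Agent.N449.SF.digits_bound m hm d e h hd he
    obtain ⟨k, rfl⟩ := Nat.exists_eq_add_of_le hm
    have h2 : 2 + k - 2 = k := by omega
    have h3 : 2 ^ (2 + k) = 4 * 2 ^ k := by rw [pow_add]; norm_num
    rw [h2] at h1
    rw [h3]
    omega
  · exfalso
    have hm' : m = 0 ∨ m = 1 := by omega
    rcases hm' with rfl | rfl
    · have hp : Nat.Prime (d * e) := by rw [h]; norm_num
      exact Nat.not_prime_mul (by omega) (by omega) hp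
    · have hp : Nat.Prime (d * e) := by rw [h]; norm_num
      exact Nat.not_prime_mul (by omega) (by omega) hp

end Pool.Agent.Results.MP_37e5fa_nt.SparseFactors
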